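import Pool.Agent.Q12.NE.Zero

/-!
# Minimal non-Engel varieties of associative rings are Cross varieties

The definitions are those of `Pool.Agent.H854R3.NE.Basic`.

* `RTerm` : the expressions in the signature `(+, -, 0, *)`; `RTerm.val v t` is the value of `t` in
  a (not necessarily unital, associative) ring; a set `E` of pairs of expressions defines the
  variety of the rings `R` with `Models E R`, that is, with `e.1.val v = e.2.val v` for all `e ∈ E`
  and all assignments `v : ℕ → R`.
* `IsEngel E` : some identity `[x, n y] = 0` with `n ≥ 1` holds in all rings of the variety.
* `MinimalNonEngel E` : the variety is not Engel, and every variety properly contained in it is.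
* `IsCross E` : the variety is finitely based, every finitely generated ring in it is finite, and
  it contains only finitely many critical rings up to isomorphism.  A ring is critical if it is
  finite and some identity of all its proper factors fails in it; a proper factor is a
  homomorphic image of a subring which is not isomorphic to the ring.
-/

set_option autoImplicit false

namespace Pool.Agent.Results.MP_a5aec7_al.CrossVariety

open Pool.Agent.H854R3.NE Pool.Agent.Q12.NE

/-- Every minimal non-Engel variety of associative rings is a Cross variety. -/
theorem result (E : Set (RTerm × RTerm)) (h : MinimalNonEngel E) : IsCross E := by
  obtain ⟨p, k, hp, hk, hsub⟩ := sub_of_minimal h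
  have : Fact p.Prime := ⟨hp⟩
  exact cross_of_sub hk hsub

end Pool.Agent.Results.MP_a5aec7_al.CrossVariety
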